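import Mathlib
import Pool.Agent.Helper14.BSC.All

/-!
# A birational section is geometric as soon as one Kummer class is rational

`k` is finitely generated over `ℚ`, `K/k` is a regular function field of one variable, `Ω` is an
algebraic closure of `K`, `kb` is the algebraic closure of `k` in `Ω` and `s` is a section of
`Gal(Ω/K) → Gal(kb/k)`.  For every nonzero `x ∈ Ω` fixed by `s` and every `N > 0` one has `x = c g^N`
with `c ∈ k^×` and `g` fixed by `s`; the class of `c` in `k^×/N` is well defined and these classes form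
the Kummer class `s^*(x)` in the completion of `k^×`.
-/

set_option autoImplicit false

namespace Pool.Agent.Helper14.Old.OneKummerClass

/-- `s` is a section of the birational Galois group of `K/k` (the hypotheses of S17615). -/
def IsSection {k K kb Ω : Type} [Field k] [Field K] [Field kb] [Field Ω] [Algebra k kb] [Algebra kb Ω]
    [Algebra K Ω] (s : (kb ≃ₐ[k] kb) →* (Ω ≃ₐ[K] Ω)) : Prop :=
  Continuous s ∧ ∀ (g : kb ≃ₐ[k] kb) (x : kb), s g (algebraMap kb Ω x) = algebraMap kb Ω (g x)

/-- `s` is geometric and arises from a unique rational point (the conclusion of S17615). -/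
def IsGeometric {k K kb Ω : Type} [Field k] [Field K] [Field kb] [Field Ω] [Algebra k K] [Algebra k kb]
    [Algebra K Ω] (s : (kb ≃ₐ[k] kb) →* (Ω ≃ₐ[K] Ω)) : Prop :=
  ∃! O : ValuationSubring K,
    O ≠ ⊤ ∧ (∀ c : k, algebraMap k K c ∈ O) ∧
    (∀ a ∈ O, ∃ c : k, O.valuation (a - algebraMap k K c) < 1) ∧
    ∃ W : ValuationSubring Ω, W.comap (algebraMap K Ω) = O ∧
      ∀ (g : kb ≃ₐ[k] kb) (x : Ω), (s g x ∈ W ↔ x ∈ W)

/-- The norm to `k₁` of the Kummer class `s^*(x)` is rational: it is the class of an element `r` of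
`k₁^×`, i.e. for every `N > 0` one has `x = c g^N` with `c ∈ k^×`, `g` fixed by `s`, and
`N_{k/k₁}(c) ∈ r k₁^N`. -/
def NormRat {k K kb Ω : Type} [Field k] [Field K] [Field kb] [Field Ω] [Algebra k kb] [Algebra k Ω]
    [Algebra K Ω] (k₁ : Type) [Field k₁] [Algebra k₁ k]
    (s : (kb ≃ₐ[k] kb) →* (Ω ≃ₐ[K] Ω)) (x : Ω) : Prop :=
  ∃ r : k₁, r ≠ 0 ∧ ∀ n : ℕ, 0 < n → ∃ c : k, c ≠ 0 ∧ ∃ g : Ω, (∀ σ, s σ g = g) ∧
    x = algebraMap k Ω c * g ^ n ∧ ∃ t : k₁, Algebra.norm k₁ c = r * t ^ n

/-- `k` is a number field and the divisor of the Kummer class `s^*(x)` is a fractional ideal `I` (and not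
only an element of the completion of the group of fractional ideals): for every `N > 0` one has
`x = c g^N` with `c ∈ k^×`, `g` fixed by `s`, and `(c) = I J^N` for some fractional ideal `J`. -/
def DivRat {k K kb Ω : Type} [Field k] [NumberField k] [Field K] [Field kb] [Field Ω] [Algebra k kb]
    [Algebra k Ω] [Algebra K Ω] (s : (kb ≃ₐ[k] kb) →* (Ω ≃ₐ[K] Ω)) (x : Ω) : Prop :=
  ∃ I : FractionalIdeal (nonZeroDivisors (NumberField.RingOfIntegers k)) k, I ≠ 0 ∧
    ∀ n : ℕ, 0 < n → ∃ c : k, c ≠ 0 ∧ ∃ g : Ω, (∀ σ, s σ g = g) ∧ x = algebraMap k Ω c * g ^ n ∧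
      ∃ J : FractionalIdeal (nonZeroDivisors (NumberField.RingOfIntegers k)) k,
        FractionalIdeal.spanSingleton (nonZeroDivisors (NumberField.RingOfIntegers k)) c = I * J ^ n

/-- Let `k` be finitely generated over `ℚ`, `k₁ ⊆ k` a subfield of finite index `n`, `K/k` a regular
function field of one variable and `s` a section. Then `s` is geometric (from a unique rational point) if
and only if there are one nonconstant function `f` and `n` distinct `c ∈ k₁` such that the Kummer classes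
`s^*(f - c)` have rational norm to `k₁`; here `f` may be taken in `K`, or in the fixed field of `s`.
For a number field `k` it is also equivalent that for one `f ∈ K \ k` and `[k : ℚ]` distinct rationals
`c` the divisors of the classes `s^*(f - c)` are fractional ideals. -/
theorem result (k : Type) [Field k] [CharZero k] (hk : (⊤ : IntermediateField ℚ k).FG)
    (k₁ : Type) [Field k₁] [Algebra k₁ k] [FiniteDimensional k₁ k]
    (K : Type) [Field K] [Algebra k K] (_hK : (⊤ : IntermediateField k K).FG)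
    (htr : ∃ t : K, Transcendental k t ∧ Algebra.IsAlgebraic (IntermediateField.adjoin k {t}) K)
    (_hreg : ∀ x : K, IsAlgebraic k x → x ∈ (algebraMap k K).range)
    (kb Ω : Type) [Field kb] [Field Ω] [Algebra k kb] [Algebra kb Ω] [Algebra k Ω] [Algebra K Ω]
    [IsScalarTower k kb Ω] [IsScalarTower k K Ω] [IsAlgClosure k kb] [IsAlgClosure K Ω]
    (s : (kb ≃ₐ[k] kb) →* (Ω ≃ₐ[K] Ω)) (hs : IsSection s) :
    (IsGeometric s ↔
      ∃ f : K, f ∉ (algebraMap k K).range ∧ ∃ A : Finset k₁, A.card = Module.finrank k₁ k ∧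
        ∀ c ∈ A, NormRat k₁ s (algebraMap K Ω (f - algebraMap k K (algebraMap k₁ k c)))) ∧
    (IsGeometric s ↔
      ∃ f : Ω, (∀ g, s g f = f) ∧ f ∉ (algebraMap k Ω).range ∧
        ∃ A : Finset k₁, A.card = Module.finrank k₁ k ∧
          ∀ c ∈ A, NormRat k₁ s (f - algebraMap k Ω (algebraMap k₁ k c))) ∧
    (∀ [NumberField k], (IsGeometric s ↔
      ∃ f : K, f ∉ (algebraMap k K).range ∧ ∃ A : Finset ℚ, A.card = Module.finrank ℚ k ∧
        ∀ c ∈ A, DivRat s (algebraMap K Ω (f - algebraMap k K (algebraMap ℚ k c))))) := by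
  have : IsAlgClosed Ω := IsAlgClosure.isAlgClosed K
  have : Algebra.IsAlgebraic K Ω := IsAlgClosure.isAlgebraic
  have h1 := Pool.Agent.Helper14.BSC.Gen.top_one Pool.Agent.Helper14.BSC.all_ONE
    Pool.Agent.Helper14.BSC.all_IFD Pool.Agent.Helper14.BSC.all_UNI Pool.Agent.Helper14.BSC.all_ALG
    Pool.Agent.Helper14.BSC.all_CNV hk k₁ htr s hs
  refine ⟨h1.1, h1.2, ?_⟩
  intro _
  exact Pool.Agent.Helper14.BSC.Gen.top_two Pool.Agent.Helper14.BSC.all_ONE
    Pool.Agent.Helper14.BSC.all_IFD Pool.Agent.Helper14.BSC.all_UNI Pool.Agent.Helper14.BSC.all_ALG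
    Pool.Agent.Helper14.BSC.all_CNV Pool.Agent.Helper14.BSC.all_ADL htr s hs

end Pool.Agent.Helper14.Old.OneKummerClass
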